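import Pool.Agent.HP778.Main

/-!
# Towers with exponents in `ℚ̄(√2 ^ √2)` and arbitrary integers as bases

Let `z = √2 ^ √2` and `w = √2 ^ z` be the numbers of the problem. The starting results vary the middle
entry of the tower. Here the base varies, together with all exponents of bounded degree: for most
integers `n` all the numbers `n ^ x`, `n ^ x w ^ y` with exponents `x`, `y` which are polynomials or
rational functions of degree at most `D` in `z` (or in `z` and `w`, or in arbitrary given numbers), `x`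
not algebraic, are transcendental; the exponents may depend on `n`. The number of exceptions up to `N`
is at most a power of `log N`.

The proof is that of the twin `MP_ee2255_nt.BoundedDegreeExponents`: `Pool.Agent.HP778`, the hyperplane
case of the linear subgroup theorem of Waldschmidt and Roy (starting files) and a bound for the
dimension of the space of the relations which vanish identically.
-/

set_option autoImplicit false

namespace Pool.Agent.Results.MP_93d8d2_nt.BasesOfTowers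

open Module Finset
open Pool.Agent.HP778 hiding IsQuot

/-- The linear combinations, with algebraic coefficients, of `1` and of logarithms of algebraic
numbers. -/
noncomputable def LogForms : Submodule (algebraicClosure ℚ ℂ) ℂ :=
  Submodule.span (algebraicClosure ℚ ℂ) ({1} ∪ {z : ℂ | IsAlgebraic ℚ (Complex.exp z)})

/-- The numbers `e ^ z` with `z` in `LogForms`, i.e. the numbers `e ^ γ α_1 ^ β_1 ⋯ α_k ^ β_k` with
algebraic `γ`, `α_i ≠ 0`, `β_i`. -/
def Prods : Set ℂ := {x | ∃ z ∈ LogForms, Complex.exp z = x}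

/-- the number `z = √2 ^ √2` -/
noncomputable def z : ℝ := √2 ^ √2

/-- the number `w = √2 ^ z` -/
noncomputable def w : ℝ := √2 ^ z

open Classical in
/-- The integers `n` between `1` and `N` such that `(s n) ^ (β z)` is in `Prods` for SOME algebraic
number `β ≠ 0`. -/
noncomputable def badBases (s : ℝ) (N : ℕ) : Finset ℕ :=
  (Finset.Icc 1 N).filter fun n => ∃ β : ℂ, IsAlgebraic ℚ β ∧ β ≠ 0 ∧
    ((s * n : ℝ) : ℂ) ^ (β * z) ∈ Prods

open Classical in
/-- The integers `n` between `1` and `N` such that `n ^ x s ^ y` is in `Prods` for SOME pair `(x, y)`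
of the set `E`. -/
noncomputable def bad (s : ℝ) (E : Set (ℂ × ℂ)) (N : ℕ) : Finset ℕ :=
  (Finset.Icc 1 N).filter fun n => ∃ xy ∈ E, (n : ℂ) ^ xy.1 * (s : ℂ) ^ xy.2 ∈ Prods

/-- the pairs `(P(z), S(z))` of values of polynomials of degree at most `D` with algebraic
coefficients, `P` nonconstant -/
def polyPairs (D : ℕ) : Set (ℂ × ℂ) :=
  {xy | ∃ P S : Polynomial (algebraicClosure ℚ ℂ), 1 ≤ P.natDegree ∧ P.natDegree ≤ D ∧
    S.natDegree ≤ D ∧ xy = (Polynomial.aeval (z : ℂ) P, Polynomial.aeval (z : ℂ) S)}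

/-- the pairs `(P(t) / Q(t), S(t) / Q(t))` with polynomials `P`, `Q`, `S` with algebraic coefficients
and of degree at most `D` in each of the `r` variables, such that `P(t) / Q(t)` is transcendental -/
def ratPairs {r : ℕ} (t : Fin r → ℂ) (D : ℕ) : Set (ℂ × ℂ) :=
  {xy | Transcendental ℚ xy.1 ∧ ∃ P Q S : MvPolynomial (Fin r) (algebraicClosure ℚ ℂ),
    (∀ i, P.degreeOf i ≤ D) ∧ (∀ i, Q.degreeOf i ≤ D) ∧ (∀ i, S.degreeOf i ≤ D) ∧
    MvPolynomial.aeval t Q ≠ 0 ∧
    xy.1 = MvPolynomial.aeval t P / MvPolynomial.aeval t Q ∧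
    xy.2 = MvPolynomial.aeval t S / MvPolynomial.aeval t Q}

theorem ofReal_cpow' {a : ℝ} (ha : 0 < a) (x : ℂ) :
    (a : ℂ) ^ x = Complex.exp (x * ((Real.log a : ℝ) : ℂ)) := by
  rw [Complex.cpow_def_of_ne_zero (by exact_mod_cast ha.ne'), Complex.ofReal_log ha.le, mul_comm]

theorem mem_of_bad {s : ℝ} (hs : 0 < s) {n : ℕ} (hn : 1 ≤ n) {x y : ℂ}
    (h : (n : ℂ) ^ x * (s : ℂ) ^ y ∈ Prods) :
    x * ((Real.log n : ℝ) : ℂ) + y * ((Real.log s : ℝ) : ℂ) ∈ Pool.Agent.H301R2.SSE.Lt := by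
  obtain ⟨v, hv, hve⟩ := h
  rw [natCast_cpow hn, ofReal_cpow' hs, ← Complex.exp_add] at hve
  exact mem_of_exp hv hve.symm

theorem bad_le {s : ℝ} (hs : 0 < s) {E : Set (ℂ × ℂ)} {N r : ℕ}
    (h : ∀ (m : ℕ) (l : Fin m → ℂ), (∀ i, IsAlgebraic ℚ (Complex.exp (l i))) →
      LinearIndependent ℚ l → (∀ i, ∃ xy ∈ E,
        xy.1 * l i + xy.2 * ((Real.log s : ℝ) : ℂ) ∈ Pool.Agent.H301R2.SSE.Lt) → m ≤ r) :
    (bad s E N).card ≤ (Nat.log 2 N + 1) ^ r := by
  classical
  have h1 := count_of (N := N) (r := r)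
    (fun n => ∃ xy ∈ E, (n : ℂ) ^ xy.1 * (s : ℂ) ^ xy.2 ∈ Prods) (by
    intro m n hn halg hli
    refine h m _ halg hli fun i => ?_
    obtain ⟨x, hx, hxp⟩ := (hn i).2
    exact ⟨x, hx, mem_of_bad hs (hn i).1 hxp⟩)
  refine le_trans (le_of_eq ?_) h1
  unfold bad
  congr

/-- `√2 ^ √2` is transcendental (Gelfond-Schneider, as a case of Baker's theorem) -/
theorem z_tr : Transcendental ℚ (z : ℂ) := by
  intro halg
  have h2 : (0 : ℝ) < √2 := Real.sqrt_pos.mpr two_pos
  have hzpos : (0 : ℝ) < z := Real.rpow_pos_of_pos h2 _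
  have hl2 : Real.log 2 ≠ 0 := (Real.log_pos one_lt_two).ne'
  have hlz : Real.log z = √2 / 2 * Real.log 2 := by
    unfold z
    rw [Real.log_rpow h2, Real.log_sqrt two_pos.le]
    ring
  have hsq : IsAlgebraic ℚ (((√2 : ℝ)) : ℂ) := by
    refine IsAlgebraic.of_pow (n := 2) (by norm_num) ?_
    have : (((√2 : ℝ)) : ℂ) ^ 2 = ((2 : ℕ) : ℂ) := by
      rw [← Complex.ofReal_pow, Real.sq_sqrt two_pos.le]
      norm_num
    rw [this]
    exact isAlgebraic_natCast 2
  have hB := Pool.Agent.H297R2.baker_inhom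
    (![((Real.log 2 : ℝ) : ℂ), ((Real.log z : ℝ) : ℂ)] : Fin 2 → ℂ) (by
      intro i
      fin_cases i
      · simp only [Fin.zero_eta, Matrix.cons_val_zero]
        rw [← Complex.ofReal_exp, Real.exp_log two_pos]
        exact_mod_cast isAlgebraic_natCast 2
      · change IsAlgebraic ℚ (Complex.exp ((Real.log z : ℝ) : ℂ))
        rw [← Complex.ofReal_exp, Real.exp_log hzpos]
        exact halg) (by
      rw [LinearIndependent.pair_iff]
      intro p q hpq
      rw [hlz] at hpq
      have h3 : ((p : ℝ) + q * (√2 / 2)) * Real.log 2 = 0 := by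
        have h4 : (((((p : ℝ) + q * (√2 / 2)) * Real.log 2 : ℝ)) : ℂ) = 0 := by
          rw [← hpq]
          simp only [Rat.smul_def]
          push_cast
          ring
        exact_mod_cast h4
      have h5 : (p : ℝ) + q * (√2 / 2) = 0 := (mul_eq_zero.mp h3).resolve_right hl2
      have hq : q = 0 := by
        by_contra hq
        have hq' : (q : ℝ) ≠ 0 := by exact_mod_cast hq
        apply irrational_sqrt_two
        refine ⟨-(2 * p) / q, ?_⟩
        push_cast
        field_simp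
        linarith
      subst hq
      refine ⟨?_, rfl⟩
      simpa using h5) 0 isAlgebraic_zero
    (![((√2 : ℝ) : ℂ) / 2, -1] : Fin 2 → ℂ) (by
      intro i
      fin_cases i
      · simp only [Fin.zero_eta, Matrix.cons_val_zero]
        rw [div_eq_mul_inv]
        exact hsq.mul (IsAlgebraic.inv (by exact_mod_cast isAlgebraic_natCast 2))
      · simp only [Fin.mk_one, Matrix.cons_val_one]
        exact isAlgebraic_one.neg) (by
      rw [Fin.sum_univ_two]
      simp only [Matrix.cons_val_zero, Matrix.cons_val_one]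
      rw [hlz]
      push_cast
      ring)
  have h6 := hB.2 1
  simp at h6

/-- **Main result.** Let `D ≥ 1`, and let `s` be any positive real number (for instance `√2`, `w` or
`1`).

(1) For all but at most `(log₂ N + 1) ^ 2` of the integers `n` between `1` and `N` the numbers
`(s n) ^ (β z)` are not in `Prods` (in particular transcendental), for all algebraic `β ≠ 0`. For
`s = √2`, `n = 1`, `β = 1` this is `w`.

(2) For all but at most `(log₂ N + 1) ^ (4 D)` of the `n` all the numbers `n ^ P(z) s ^ S(z)`, with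
polynomials `P`, `S` of degree at most `D` with algebraic coefficients, `P` nonconstant, are not in
`Prods`; for `s = 1`, i.e. for the numbers `n ^ P(z)`, there are at most `(log₂ N + 1) ^ (4 D - 2)`
exceptions.

(3) Let `t = (t_1, ..., t_r)` be any complex numbers, for instance `t = z` or `t = (z, w)`. For all
numbers `n ^ x s ^ y`, `x = P(t) / Q(t)` transcendental, `y = S(t) / Q(t)`, with polynomials of degree
at most `D` in each variable, there are at most `(log₂ N + 1) ^ (2 (4 D) ^ r)` exceptions, and for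
`s = 1` at most `(log₂ N + 1) ^ (2 ((4 D) ^ r - 2 ^ r))`.

(4) All nonzero algebraic numbers are in `Prods`. -/
theorem result :
    (∀ s : ℝ, 0 < s → ∀ N : ℕ, (badBases s N).card ≤ (Nat.log 2 N + 1) ^ 2) ∧
    (∀ D N : ℕ, 1 ≤ D →
      (∀ s : ℝ, 0 < s → (bad s (polyPairs D) N).card ≤ (Nat.log 2 N + 1) ^ (4 * D)) ∧
      (bad 1 (polyPairs D) N).card ≤ (Nat.log 2 N + 1) ^ (4 * D - 2)) ∧
    (∀ (r : ℕ) (t : Fin r → ℂ) (D N : ℕ), 1 ≤ D →
      (∀ s : ℝ, 0 < s → (bad s (ratPairs t D) N).card ≤ (Nat.log 2 N + 1) ^ (2 * (4 * D) ^ r)) ∧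
      (bad 1 (ratPairs t D) N).card ≤ (Nat.log 2 N + 1) ^ (2 * ((4 * D) ^ r - 2 ^ r))) ∧
    (∀ x : ℂ, x ≠ 0 → IsAlgebraic ℚ x → x ∈ Prods) := by
  classical
  refine ⟨fun s hs N => ?_, fun D N hD => ⟨fun s hs => bad_le hs fun m l halg hli h => ?_,
    bad_le one_pos fun m l halg hli h => ?_⟩,
    fun r t D N hD => ⟨fun s hs => bad_le hs fun m l halg hli h => ?_,
    bad_le one_pos fun m l halg hli h => ?_⟩, fun x hx0 hx => ?_⟩
  · refine le_trans (Finset.card_le_card ?_)
      (count_coset z_tr (z * ((Real.log s : ℝ) : ℂ)) N).1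
    intro n hn
    unfold badBases at hn
    rw [Finset.mem_filter] at hn ⊢
    obtain ⟨hnI, β, hβ, hβ0, v, hv, hve⟩ := hn
    refine ⟨hnI, ?_⟩
    have hn1 : 1 ≤ n := (Finset.mem_Icc.mp hnI).1
    have hnpos : (0 : ℝ) < n := by exact_mod_cast hn1
    rw [ofReal_cpow' (mul_pos hs hnpos)] at hve
    have h1 := mem_of_exp hv hve.symm
    have h2 := Pool.Agent.H301R2.SSE.Lt_mul hβ.inv h1
    have h3 : (z : ℂ) * ((Real.log n : ℝ) : ℂ) + z * ((Real.log s : ℝ) : ℂ) =
        β⁻¹ * (β * z * ((Real.log (s * n) : ℝ) : ℂ)) := by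
      rw [Real.log_mul hs.ne' hnpos.ne']
      push_cast
      field_simp
      ring
    rw [h3]
    exact h2
  · refine logs_polyz z_tr ((Real.log s : ℝ) : ℂ) hD l halg hli fun i => ?_
    obtain ⟨x, ⟨P, S, h1, h2, h3, rfl⟩, hx⟩ := h i
    exact ⟨P, S, h1, h2, h3, hx⟩
  · refine logs_poly z_tr hD l halg hli fun i => ?_
    obtain ⟨x, ⟨P, S, h1, h2, h3, rfl⟩, hx⟩ := h i
    refine ⟨P, h1, h2, ?_⟩
    simpa using hx
  · refine (logs_ratio t ((Real.log s : ℝ) : ℂ) hD l halg hli fun i => ?_).1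
    obtain ⟨xy, ⟨hx, P, Q, S, hP, hQ, hS, hQ0, h1, h2⟩, hxl⟩ := h i
    exact ⟨xy.1, xy.2, ⟨P, Q, S, hP, hQ, hS, hQ0, h1, h2⟩, hx, hxl⟩
  · refine (logs_ratio t ((Real.log (1 : ℝ) : ℝ) : ℂ) hD l halg hli fun i => ?_).2 (by simp)
    obtain ⟨xy, ⟨hx, P, Q, S, hP, hQ, hS, hQ0, h1, h2⟩, hxl⟩ := h i
    exact ⟨xy.1, xy.2, ⟨P, Q, S, hP, hQ, hS, hQ0, h1, h2⟩, hx, hxl⟩
  · refine ⟨Complex.log x, ?_, Complex.exp_log hx0⟩
    refine Submodule.subset_span (Or.inr ?_)
    change IsAlgebraic ℚ (Complex.exp (Complex.log x))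
    rwa [Complex.exp_log hx0]

end Pool.Agent.Results.MP_93d8d2_nt.BasesOfTowers
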