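import Pool.Agent.R347.GS.Struct

/-!
# The Gelfond-Schneider theorem over large fields, and towers of square roots of two

Let `q_0, q_1, …` be a sequence of integers `≥ 2`, and let `tower h` be the `h`-fold iterate of
`n ↦ 2 ^ n`. A complex number is *approximable* if, for some `h` and every `κ`, for all large `k` it has
an algebraic approximation of degree at most `tower h (q_k)`, with a polynomial over `ℤ` with coefficients
of absolute value at most `tower h (q_k)`, and with an error of at most `1 / tower κ (q_k)`. A real number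
is *rationally approximable* if the approximations can be chosen in `ℚ`, with denominators at most
`tower h (q_k)`. The approximable numbers form an algebraically closed field `K`, the rationally approximable numbers
form a field `R`, and `R ⊆ K`.

**Theorem.** (0) The algebraic numbers in `R` are rational.

(1) Let `l ≠ 0` be a complex number with `exp l ∈ K`. For `ζ ∈ K` the number `exp (ζ l)` is in `K` if and only if `ζ ∈ R`.
If `ζ ∈ K` is not in `R`, and `x_1, …, x_n` in `R` are linearly independent over `ℚ`, then `exp (x_1 ζ l), …, exp (x_n ζ l)` are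
algebraically independent over `K`. For every complex `s` the set of the `ζ ∈ K` with `exp ((s + ζ) l) ∈ K` is empty or a
coset of `R`.

(2) For every complex `s ≠ 0` the set of the `ζ ∈ K` with `exp (ζ s) ∈ K` is `{0}` or `R ζ₀` for some `ζ₀ ≠ 0`; for all other
`ζ ∈ K` and `x_1, …, x_n` in `R` which are linearly independent over `ℚ` the numbers `exp (x_i ζ s)` are algebraically
independent over `K`.

(3) Let `z = √2 ^ √2`, so that `w = √2 ^ z`. Then `z` is not in `K`; the set of the `ζ ∈ K` with `√2 ^ (z + ζ) ∈ K` is empty or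
a coset of `R`; the set of the `ζ ∈ K` with `√2 ^ (ζ z) ∈ K` is `{0}` or `R ζ₀`; for all other `ζ` in `K` the numbers
`√2 ^ (x_i ζ z)` are algebraically independent over `K` if the `x_i` in `R` are linearly independent over `ℚ`. If `w ∈ K`, then
`√2 ^ (ζ z) ∈ K` for `ζ ∈ K` if and only if `ζ ∈ R`.

For the explicit sequence `q_k = 2 ^ e_k`, `e_0 = 1`, `e_(k + 1) = tower (k + 2) (e_k)` all the sums of
numbers `1 / q_k` over arbitrary sets of `k` are in `R`, they are pairwise different, and `K` has transcendence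
degree the cardinality of the continuum.

The proof of (1) is Schneider's method for the functions `z ^ i * exp (j l z)` and the points `a + b ζ`, made quantitative: all
the numbers are replaced by approximations, and the lower bounds are explicit in the degrees and the heights.
-/

set_option autoImplicit false

namespace Pool.Agent.Results.MP_93d8d2_nt.GelfondSchneiderOverK

/-- The `h`-fold iterate of `n ↦ 2 ^ n`. -/
def tower : ℕ → ℕ → ℕ
  | 0, q => q
  | h + 1, q => 2 ^ tower h q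

/-- `a` is a zero of a nonzero polynomial over `ℤ` of degree at most `N` whose coefficients have absolute
value at most `N`. -/
def Bounded (N : ℕ) (a : ℂ) : Prop :=
  ∃ P : Polynomial ℤ, P ≠ 0 ∧ P.natDegree ≤ N ∧ (∀ n, |P.coeff n| ≤ N) ∧ Polynomial.aeval a P = 0

/-- For some `h` and every `κ`, for all large `k` the number `z` has an algebraic approximation of
complexity at most `tower h (q k)` and with an error of at most `1 / tower κ (q k)`. -/
def Approximable (q : ℕ → ℕ) (z : ℂ) : Prop :=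
  ∃ h : ℕ, ∀ κ : ℕ, ∃ k₀ : ℕ, ∀ k ≥ k₀, ∃ a : ℂ, Bounded (tower h (q k)) a ∧
    ‖z - a‖ ≤ ((tower κ (q k) : ℕ) : ℝ)⁻¹

/-- For some `h` and every `κ`, for all large `k` the real number `x` has a rational approximation with a
denominator at most `tower h (q k)` and with an error of at most `1 / tower κ (q k)`. -/
def RationallyApproximable (q : ℕ → ℕ) (x : ℝ) : Prop :=
  ∃ h : ℕ, ∀ κ : ℕ, ∃ k₀ : ℕ, ∀ k ≥ k₀, ∃ (u : ℤ) (v : ℕ), 1 ≤ v ∧ v ≤ tower h (q k) ∧
    |x - u / v| ≤ ((tower κ (q k) : ℕ) : ℝ)⁻¹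

/-- The exponents `e_0 = 1`, `e_(k + 1) = tower (k + 2) (e_k)`. -/
def e : ℕ → ℕ
  | 0 => 1
  | k + 1 => tower (k + 2) (e k)

/-- The explicit sequence `q_k = 2 ^ e_k`. -/
def q₀ (k : ℕ) : ℕ := 2 ^ e k

/-- The sum of the numbers `1 / q_k` over the elements `k` of the set `A`. -/
noncomputable def number (A : Set ℕ) : ℝ :=
  ∑' k, Set.indicator A (fun k => 1 / (q₀ k : ℝ)) k

/-- `ζ` is a real number in `R` -/
def InR (R : IntermediateField ℚ ℝ) (ζ : ℂ) : Prop := ∃ x ∈ R, ζ = ((x : ℝ) : ℂ)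

/-- `exp (x_1 v), …, exp (x_n v)` are algebraically independent over `K` for `ℚ`-linearly independent `x_i` in `R` -/
def Independent (K : IntermediateField ℚ ℂ) (R : IntermediateField ℚ ℝ) (v : ℂ) : Prop :=
  ∀ (n : ℕ) (x : Fin n → R), LinearIndependent ℚ x →
    AlgebraicIndependent K (fun i => Complex.exp (((x i : ℝ) : ℂ) * v))

/-- the statement (1) -/
def GelfondSchneider (K : IntermediateField ℚ ℂ) (R : IntermediateField ℚ ℝ) : Prop :=
  ∀ l : ℂ, l ≠ 0 → Complex.exp l ∈ K →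
    (∀ ζ ∈ K, Complex.exp (ζ * l) ∈ K ↔ InR R ζ) ∧
    (∀ ζ ∈ K, ¬ InR R ζ → Independent K R (ζ * l)) ∧
    ∀ s : ℂ, ∀ ζ ∈ K, Complex.exp ((s + ζ) * l) ∈ K →
      ∀ ζ' ∈ K, Complex.exp ((s + ζ') * l) ∈ K ↔ InR R (ζ' - ζ)

/-- the statement (2) -/
def OneLine (K : IntermediateField ℚ ℂ) (R : IntermediateField ℚ ℝ) (s : ℂ) : Prop :=
  ((∀ ζ ∈ K, Complex.exp (ζ * s) ∈ K → ζ = 0) ∨
    ∃ ζ₀ ∈ K, ζ₀ ≠ 0 ∧ ∀ ζ ∈ K, Complex.exp (ζ * s) ∈ K ↔ ∃ x ∈ R, ζ = x * ζ₀) ∧
  ∀ ζ ∈ K, Complex.exp (ζ * s) ∉ K → Independent K R (ζ * s)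

/-- `log √2` -/
noncomputable def l₀ : ℂ := ((Real.log (√2) : ℝ) : ℂ)

/-- `√2 ^ s` -/
noncomputable def sqrtTwoPow (s : ℂ) : ℂ := Complex.exp (s * l₀)

/-- `z = √2 ^ √2` -/
noncomputable def z : ℂ := ((√2 ^ √2 : ℝ) : ℂ)

/-- the statement (3) -/
def Tower (K : IntermediateField ℚ ℂ) (R : IntermediateField ℚ ℝ) : Prop :=
  sqrtTwoPow z = ((√2 ^ (√2 ^ √2 : ℝ) : ℝ) : ℂ) ∧ z ∉ K ∧
  (∀ ζ ∈ K, ∀ ζ' ∈ K, sqrtTwoPow (z + ζ) ∈ K → (sqrtTwoPow (z + ζ') ∈ K ↔ InR R (ζ' - ζ))) ∧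
  OneLine K R (z * l₀) ∧
  (sqrtTwoPow z ∈ K → ∀ ζ ∈ K, sqrtTwoPow (ζ * z) ∈ K ↔ InR R ζ)

/-- the statements (0), …, (3) -/
def Good (K : IntermediateField ℚ ℂ) (R : IntermediateField ℚ ℝ) : Prop :=
  (∀ x ∈ R, IsAlgebraic ℚ x → ∃ r : ℚ, (r : ℝ) = x) ∧ GelfondSchneider K R ∧
  (∀ s : ℂ, s ≠ 0 → OneLine K R s) ∧ Tower K R

theorem tower_eq : tower = Pool.Agent.R347.LW.tow := by
  funext h q
  induction h with
  | zero => rfl
  | succ h ih => rw [tower, Pool.Agent.R347.LW.tow, ih]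

theorem approximable_iff (q : ℕ → ℕ) (z : ℂ) : Approximable q z ↔ Pool.Agent.R347.LW.Appr q z := by
  unfold Approximable Pool.Agent.R347.LW.Appr
  rw [tower_eq]
  rfl

theorem rationallyApproximable_iff (q : ℕ → ℕ) (x : ℝ) :
    RationallyApproximable q x ↔ Pool.Agent.R347.LW.RAppr q x := by
  unfold RationallyApproximable Pool.Agent.R347.LW.RAppr
  rw [tower_eq]

theorem e_eq : e = Pool.Agent.R347.LW.eT := by
  funext k
  induction k with
  | zero => rfl
  | succ k ih => rw [e, Pool.Agent.R347.LW.eT, ih, tower_eq]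

theorem q₀_eq : q₀ = Pool.Agent.R347.LW.qT := by
  funext k
  rw [q₀, Pool.Agent.R347.LW.qT, e_eq]

theorem number_eq : number = Pool.Agent.R347.LW.xiT := by
  funext A
  rw [number, Pool.Agent.R347.LW.xiT]
  refine tsum_congr fun k => ?_
  have h1 : 1 / (q₀ k : ℝ) = (1 / 2 : ℝ) ^ Pool.Agent.R347.LW.eT k := by
    rw [q₀, e_eq]
    push_cast
    rw [one_div, one_div, inv_pow]
  by_cases h : k ∈ A
  · rw [Set.indicator_of_mem h, Pool.Agent.R347.LW.trT_of_mem h, h1]
  · rw [Set.indicator_of_notMem h, Pool.Agent.R347.LW.trT_of_notMem h]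

section

open Pool.Agent.R347.LW Pool.Agent.R347.GS

variable {q : ℕ → ℕ} (hq : ∀ k, 2 ≤ q k)

include hq

theorem indep {v : ℂ} (hv : Complex.exp v ∉ UK hq) : Independent (UK hq) (UR hq) v :=
  fun n x hx => dich hq v hv n x hx

theorem gs_all : GelfondSchneider (UK hq) (UR hq) := by
  intro l hl h1
  refine ⟨fun ζ hζ => gs_iff hq l ζ hl h1 hζ, fun ζ hζ hn => indep hq fun h => ?_,
    fun s ζ hζ h ζ' hζ' => coset hq l s ζ ζ' hl h1 hζ hζ' h⟩
  exact hn ((gs_iff hq l ζ hl h1 hζ).1 h)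

theorem oneLine (s : ℂ) (hs : s ≠ 0) : OneLine (UK hq) (UR hq) s := by
  refine ⟨?_, fun ζ _ h => indep hq h⟩
  rcases line hq s hs with h | ⟨ζ₀, h1, h2, h3⟩
  · exact Or.inl h
  · exact Or.inr ⟨ζ₀, h1, h2, h3⟩

omit hq in
theorem log_pos' : 0 < Real.log (√2) := by
  apply Real.log_pos
  rw [Real.lt_sqrt (by norm_num)]
  norm_num

omit hq in
theorem l₀_ne : l₀ ≠ 0 := by
  unfold l₀
  exact_mod_cast log_pos'.ne'

omit hq in
theorem exp_l₀ : Complex.exp l₀ = ((√2 : ℝ) : ℂ) := by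
  unfold l₀
  rw [← Complex.ofReal_exp, Real.exp_log (by positivity)]

theorem sqrt_mem : ((√2 : ℝ) : ℂ) ∈ UK hq := by
  refine Appr.ofAlg hq (Polynomial.X ^ 2 - Polynomial.C 2) ?_ ?_
  · intro h0
    have h1 := congrArg (fun P : Polynomial ℤ => P.eval 0) h0
    simp at h1
  · have h : (((√2 : ℝ) : ℂ)) ^ 2 = 2 := by
      rw [← Complex.ofReal_pow, Real.sq_sqrt (by norm_num)]
      norm_num
    rw [map_sub, map_pow, Polynomial.aeval_X, Polynomial.aeval_C, h]
    simp

omit hq in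
theorem z_eq : z = Complex.exp (((√2 : ℝ) : ℂ) * l₀) := by
  unfold z l₀
  rw [Real.rpow_def_of_pos (by positivity), Complex.ofReal_exp]
  congr 1
  push_cast
  ring

omit hq in
theorem tower_val : sqrtTwoPow z = ((√2 ^ (√2 ^ √2 : ℝ) : ℝ) : ℂ) := by
  unfold sqrtTwoPow z l₀
  rw [Real.rpow_def_of_pos (by positivity : 0 < √2) (√2 ^ √2 : ℝ), Complex.ofReal_exp]
  congr 1
  push_cast
  ring

theorem sqrt_notR : ¬ InR (UR hq) ((√2 : ℝ) : ℂ) := by
  rintro ⟨x, hx, he⟩
  have h1 : √2 = x := by exact_mod_cast he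
  have h2 : IsAlgebraic ℚ (√2) := by
    refine ⟨Polynomial.X ^ 2 - Polynomial.C 2, ?_, ?_⟩
    · intro h0
      have h1 := congrArg (fun P : Polynomial ℚ => P.eval 0) h0
      simp at h1
    · simp
  rw [h1] at h2
  obtain ⟨r, hr⟩ := rappr_alg hx h2
  rw [← h1] at hr
  exact irrational_sqrt_two ⟨r, hr⟩

theorem z_notMem : z ∉ UK hq := by
  intro h
  rw [z_eq] at h
  have h1 : Complex.exp l₀ ∈ UK hq := by
    rw [exp_l₀]
    exact sqrt_mem hq
  exact sqrt_notR hq ((gs_iff hq l₀ _ l₀_ne h1 (sqrt_mem hq)).1 h)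

theorem z_ne : z ≠ 0 := fun h => z_notMem hq (by rw [h]; exact zero_mem _)

theorem towers : Tower (UK hq) (UR hq) := by
  have h1 : Complex.exp l₀ ∈ UK hq := by
    rw [exp_l₀]
    exact sqrt_mem hq
  refine ⟨tower_val, z_notMem hq, fun ζ hζ ζ' hζ' h => ?_, oneLine hq _ (mul_ne_zero (z_ne hq) l₀_ne),
    fun h ζ hζ => ?_⟩
  · exact coset hq l₀ z ζ ζ' l₀_ne h1 hζ hζ' h
  · have h2 := gs_iff hq (z * l₀) ζ (mul_ne_zero (z_ne hq) l₀_ne) h hζ
    unfold sqrtTwoPow
    rw [mul_assoc]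
    exact h2

theorem good : Good (UK hq) (UR hq) :=
  ⟨fun _ hx ha => rappr_alg hx ha, gs_all hq, oneLine hq, towers hq⟩

end

/-- **Main result.** -/
theorem result :
    (∀ q : ℕ → ℕ, (∀ k, 2 ≤ q k) → ∃ (K : IntermediateField ℚ ℂ) (R : IntermediateField ℚ ℝ),
      (∀ z, z ∈ K ↔ Approximable q z) ∧ (∀ x, x ∈ R ↔ RationallyApproximable q x) ∧ IsAlgClosed K ∧
      (∀ x ∈ R, (x : ℂ) ∈ K) ∧ Good K R) ∧
    (∀ k, 2 ≤ q₀ k) ∧ (∀ A : Set ℕ, RationallyApproximable q₀ (number A)) ∧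
    Function.Injective number ∧
    (∀ K : IntermediateField ℚ ℂ, (∀ z, z ∈ K ↔ Approximable q₀ z) →
      Algebra.trdeg ℚ K = Cardinal.continuum) := by
  refine ⟨fun q hq => ⟨Pool.Agent.R347.LW.UK hq, Pool.Agent.R347.LW.UR hq, fun z => (approximable_iff q z).symm,
    fun x => (rationallyApproximable_iff q x).symm, Pool.Agent.R347.LW.UK_closed hq, fun x hx => ?_, good hq⟩,
    ?_, fun A => ?_, ?_, fun K hK => ?_⟩
  · exact Pool.Agent.R347.LW.RAppr.appr hq hx
  · intro k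
    rw [q₀_eq]
    exact Pool.Agent.R347.LW.two_le_qT k
  · rw [rationallyApproximable_iff, q₀_eq, number_eq]
    exact Pool.Agent.R347.LW.xiT_rappr A
  · rw [number_eq]
    exact Pool.Agent.R347.LW.xiT_injective
  · have h1 : K = Pool.Agent.R347.LW.UK Pool.Agent.R347.LW.two_le_qT := by
      ext z
      rw [hK, approximable_iff, q₀_eq]
      rfl
    rw [h1]
    exact Pool.Agent.R347.LW.UK_trdeg _

end Pool.Agent.Results.MP_93d8d2_nt.GelfondSchneiderOverK
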