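import Pool.Agent.R349.Short2
import Pool.Agent.R349.FreeS

/-!
# All towers of height three with entries `√2` and `x`, for algebraic `x` near `√2`: a bounded number of exceptions in
# small discs

The number of the problem is `w = √2 ^ (√2 ^ √2)`. We replace some of the three numbers `√2` by an algebraic number `x`
near `√2`. There are seven towers of height three and three of height two with entries in `{√2, x}` which are not
constant. With `log x` and `√2` replaced by any irrational algebraic number `s > 0` these are the eleven numbers

`log x, s^x, x^s, x^x, x^(s^s), s^(s^x), s^(x^s), s^(x^x), x^(s^x), x^(x^s), x^(x^x)`.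

The starting results concern towers with integral or arbitrary bases and middle entries in long intervals, with a number of
exceptions which tends to infinity. Here, **at most `C` algebraic numbers `x` of height at most `T` of a number field `F`
in a disc of radius `T ^ (-δ)`** (around `√2`, or anywhere else in a compact subset of the slit plane) are exceptions to
the following: these eleven numbers satisfy no polynomial relation, not even an approximate one, of degree at most `d` and
height at most `T ^ A` whose coefficients are combinations of given complex numbers `ξ_1, …, ξ_g`, for instance of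
monomials in `√2 ^ √2`, `w`, `log 2`; and together with `π` no relation over `F`. Here `A` and `δ > 0` are arbitrary, and
`C` does not depend on `T` and on the field `F` of degree at most `m`; the numbers `x` may approach `√2` at any polynomial
rate in their height. More generally, let `X_1, …, X_n` be finite sets of elements of `F` of height at most `T`, with
images in a compact subset `K` of the slit plane, each of them of diameter at most `T ^ (-δ)`; for instance all elements of
`X_j` can be fractions with one fixed denominator `T`. All but `C ∑_j ∏_(i ≠ j) |X_i|` of the tuples of `X_1 × … × X_n` are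
good, that is, the `11 n` numbers have the property above, and there is a good one if all `|X_j| > C`.

The proof uses Ax's theorem, relative to countable fields of constants, twice: the towers of height two are exponentials
of functions of the field generated by `x` and `log x`, and the towers of height three are exponentials of functions of
the field generated by the towers of height two (`Pool.Agent.R349.Semi.level2`). The exponents are linearly independent
over `ℚ` modulo constants since `1, s, s^s` are linearly independent by the theorem of Gelfond and Schneider. The second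
ingredient is a determinant method for small discs (`Pool.Agent.R349.Gen.shortG`).
-/

set_option autoImplicit false

open NumberField

namespace Pool.Agent.Results.MP_93d8d2_nt.SmallDiscs

/-- The polynomials of degree at most `d` in each variable, all of whose coefficients are of the form `∑ ξ_i ι(c_i)`, where
the `c_i` are integers of the number field `F` all of whose conjugates have absolute value at most `H`. -/
def Admissible {σ : Type} {g : ℕ} (F : Type) [Field F] [NumberField F] (ι : F →+* ℂ) (ξ : Fin g → ℂ) (d : ℕ) (H : ℝ)
    (P : MvPolynomial σ ℂ) : Prop :=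
  (∀ y, P.degreeOf y ≤ d) ∧
    ∀ s, ∃ c : Fin g → 𝓞 F, (∀ i (φ : F →+* ℂ), ‖φ (c i)‖ ≤ H) ∧ P.coeff s = ∑ i, ξ i * ι (c i)

/-- The complex numbers `v` are good: every admissible polynomial takes at them a value which is at least `δ` times each of
its coefficients, and `π` and these numbers satisfy no relation `Q = 0` with a nonzero polynomial `Q` of degree at most `d`
in each variable whose coefficients are integers of `F` with conjugates of absolute value at most `H`. -/
def Good {σ : Type} {g : ℕ} (F : Type) [Field F] [NumberField F] (ι : F →+* ℂ) (ξ : Fin g → ℂ) (d : ℕ)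
    (H δ : ℝ) (v : σ → ℂ) : Prop :=
  (∀ P : MvPolynomial σ ℂ, Admissible F ι ξ d H P → ∀ s, δ * ‖P.coeff s‖ ≤ ‖MvPolynomial.aeval v P‖) ∧
  ∀ Q : MvPolynomial (Option σ) (𝓞 F), Q ≠ 0 → (∀ x, Q.degreeOf x ≤ d) →
    (∀ s (φ : F →+* ℂ), ‖φ ((Q.coeff s : 𝓞 F) : F)‖ ≤ H) →
    MvPolynomial.eval₂ (ι.comp (algebraMap (𝓞 F) F)) (fun o => o.elim (Real.pi : ℂ) v) Q ≠ 0

/-- The element `x` of `F` is a quotient of integers all of whose conjugates have absolute value at most `T`. -/
def HeightLe (F : Type) [Field F] [NumberField F] (T : ℝ) (x : F) : Prop :=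
  ∃ a b : 𝓞 F, b ≠ 0 ∧ (∀ φ : F →+* ℂ, ‖φ a‖ ≤ T ∧ ‖φ b‖ ≤ T) ∧ x = a / b

/-- The principal value of the power `a ^ b`. -/
noncomputable def pow (a b : ℂ) : ℂ := Complex.exp (b * Complex.log a)

/-- The logarithm of `x`, the powers `s^x, x^s, x^x` and `x^(s^s)`, and the towers `s^(s^x)`, `s^(x^s)`, `s^(x^x)`,
`x^(s^x)`, `x^(x^s)`, `x^(x^x)`. -/
noncomputable def towers (s x : ℂ) : Fin 11 → ℂ :=
  ![Complex.log x, pow s x, pow x s, pow x x, pow x (pow s s), pow s (pow s x), pow s (pow x s), pow s (pow x x),
    pow x (pow s x), pow x (pow x s), pow x (pow x x)]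

theorem towers_eq (s x : ℂ) : towers s x = fun k => (Fin.cons Complex.log
    (fun i z => Complex.exp (Pool.Agent.R349.Semi.e2 s i z)) : Fin 11 → ℂ → ℂ) k x := by
  funext k
  fin_cases k <;> rfl

/-- Let `s > 0` be an irrational algebraic number, for instance `s = √2`. Let `K` be a compact subset of the slit plane.
For all `n`, `m`, `g`, `d`, `A` and `δ > 0` there are `B`, `C`, `T₀` with the property stated above. -/
theorem result (s : ℝ) (hs : 0 < s) (hirr : Irrational s) (halg : IsAlgebraic ℚ s) (n : ℕ)
    (K : Set ℂ) (hK : IsCompact K) (hKs : K ⊆ Complex.slitPlane) (m g d : ℕ) (A δ : ℝ) (hδ : 0 < δ) :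
    ∃ (B : ℝ) (C : ℕ) (T₀ : ℝ), ∀ (F : Type) [Field F] [NumberField F], Module.finrank ℚ F ≤ m →
      ∀ (ι : F →+* ℂ) (ξ : Fin g → ℂ) (T : ℝ), T₀ ≤ T → ∀ X : Fin n → Finset F,
        (∀ j, ∀ x ∈ X j, ι x ∈ K ∧ HeightLe F T x) → (∀ j, ∀ x ∈ X j, ∀ y ∈ X j, ‖ι x - ι y‖ ≤ T ^ (-δ)) →
        (({x : Fin n → F | (∀ j, x j ∈ X j) ∧ ¬ Good F ι ξ d (T ^ A) (T ^ (-B))
          (fun k : Fin n × Fin 11 => towers s (ι (x k.1)) k.2)}.ncard : ℝ) ≤
          C * ∑ j, ∏ i ∈ Finset.univ.erase j, ((X i).card : ℝ)) ∧
        ((∀ j, C < (X j).card) → ∃ x : Fin n → F, (∀ j, x j ∈ X j) ∧ Good F ι ξ d (T ^ A) (T ^ (-B))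
          (fun k : Fin n × Fin 11 => towers s (ι (x k.1)) k.2)) := by
  have hfun : (fun (k : Fin 11) z => towers s z k) = (Fin.cons Complex.log
      (fun i z => Complex.exp (Pool.Agent.R349.Semi.e2 s i z)) : Fin 11 → ℂ → ℂ) := by
    funext k z
    rw [towers_eq]
  have hC : IsAlgebraic ℚ (s : ℂ) := by
    have := halg.algebraMap (A := ℂ)
    simpa using this
  exact Pool.Agent.R349.Gen.shortG m n g d (fun (_ : Fin n) (k : Fin 11) z => towers s z k) K hK
    (fun _ k t ht => by
      have h := congrFun hfun k
      rw [h]
      refine Fin.cases ?_ (fun k => ?_) k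
      · exact Pool.Agent.R349.Semi.log_an t (hKs ht)
      · exact (Pool.Agent.R349.Semi.e2_an (s : ℂ) k t (hKs ht)).cexp)
    (fun _ t ht => by
      change Pool.Agent.Y124.LocInd (fun (k : Fin 11) z => towers s z k) t
      rw [hfun]
      exact Pool.Agent.R349.Semi.level2 (Pool.Agent.R349.Semi.log_ne hs hirr)
        (Pool.Agent.R349.Semi.free_of hs hirr hC) t (hKs ht)) A δ hδ

end Pool.Agent.Results.MP_93d8d2_nt.SmallDiscs
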