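import Pool.Agent.R437.Met.GGE
import Pool.Agent.Results.MP_93d8d2_nt.SmallDiscs

/-!
# All towers of height three with entries `√2` and `x`, for the algebraic `x` near a given point

The number of the problem is `w = √2 ^ (√2 ^ √2)`. Let `s > 0` be an irrational algebraic number, for instance `√2`, and
`F` a number field in `ℂ`. We consider the logarithm of `x` and all the nonconstant towers of height two and three with
entries `s` and `x`:

`log x, s^x, x^s, x^x, x^(s^s), s^(s^x), s^(x^s), s^(x^x), x^(s^x), x^(x^s), x^(x^x)`.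

For all `ξ` in the slit plane outside a set of Hausdorff dimension zero the elements `x` of `F` of height at most `T` with
`|ξ - x| ≤ C T ^ (-τ)`, `T` large, have the following property: these eleven numbers satisfy no relation, not even an
approximate one, of degree at most `d` whose coefficients are combinations of height at most `T ^ A` of `g` given complex
numbers (for instance monomials in `√2 ^ √2` and `w`), and together with `π` no relation over `F` of this degree and
height; here `g`, `d`, `A` and `τ > 0` are arbitrary. For `n`-tuples `x` near `ξ` in `ℂⁿ` and the `11 n` numbers the set of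
the exceptional `ξ` has dimension at most `2 [F : ℚ] (n - 1) / τ`.

Proof. The bounded number of exceptions in small discs (`SmallDiscs`, Ax's theorem and a determinant method) bounds the
number of the bad tuples of height at most `T` in compact sets, and the set of the `ξ` with infinitely many bad tuples
nearby is covered by balls around these (`Pool.Agent.R437.Met`).
-/

set_option autoImplicit false

open NumberField

namespace Pool.Agent.Results.MP_93d8d2_nt.NearEveryPoint

open Pool.Agent.R437.Met SmallDiscs

lemma functions_eq (s : ℂ) : (fun (k : Fin 11) z => towers s z k) = (Fin.cons Complex.log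
      (fun i z => Complex.exp (Pool.Agent.R349.Semi.e2 s i z)) : Fin 11 → ℂ → ℂ) := by
  funext k z
  rw [towers_eq]

lemma functions_an (s : ℂ) (k : Fin 11) (t : ℂ) (ht : t ∈ Complex.slitPlane) :
    AnalyticAt ℂ ((fun (k : Fin 11) z => towers s z k) k) t := by
  rw [functions_eq]
  refine Fin.cases ?_ (fun k => ?_) k
  · exact Pool.Agent.R349.Semi.log_an t ht
  · exact (Pool.Agent.R349.Semi.e2_an s k t ht).cexp

lemma functions_ind (s : ℝ) (hs : 0 < s) (hirr : Irrational s) (halg : IsAlgebraic ℚ s) (t : ℂ)
    (ht : t ∈ Complex.slitPlane) : Pool.Agent.Y124.LocInd (fun (k : Fin 11) z => towers (s : ℂ) z k) t := by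
  have hC : IsAlgebraic ℚ (s : ℂ) := by
    have := halg.algebraMap (A := ℂ)
    simpa using this
  rw [functions_eq]
  exact Pool.Agent.R349.Semi.level2 (Pool.Agent.R349.Semi.log_ne hs hirr)
    (Pool.Agent.R349.Semi.free_of hs hirr hC) t ht

/-- **Towers at the points near a given point.** Let `s > 0` be an irrational algebraic number, for instance `s = √2`, `F`
a number field with an embedding `ι` in `ℂ` and `c` a sequence of complex numbers.

(1) There is a set `E` of complex numbers of Hausdorff dimension zero such that for all `ξ` in the slit plane outside `E`,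
all `g`, `d`, `A` and all `τ > 0` there is `B` such that for all `C` and all large `T`: for all `x` in `F` of height at
most `T` with `|ξ - ι(x)| ≤ C T ^ (-τ)` the eleven numbers are good, for the degree `d`, the height `T ^ A`, the first `g`
of the numbers `c`, and the measure `T ^ (-B)`.
(2) For all `n ≥ 1` and `τ > 0` there is a set `E` of `n`-tuples of dimension at most `2 [F : ℚ] (n - 1) / τ` such that
for all `ξ` outside `E` with coordinates in the slit plane and all `g`, `d`, `A` there is `B` such that for all `C` and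
all large `T`: for all `n`-tuples `x` of elements of `F` of height at most `T` with `|ξ_j - ι(x_j)| ≤ C T ^ (-τ)` for all
`j` the `11 n` numbers are good. -/
theorem result (s : ℝ) (hs : 0 < s) (hirr : Irrational s) (halg : IsAlgebraic ℚ s) (F : Type) [Field F]
    [NumberField F] (ι : F →+* ℂ) (c : ℕ → ℂ) :
    (∃ E : Set ℂ, dimH E = 0 ∧ ∀ ξ ∈ Complex.slitPlane, ξ ∉ E → ∀ (g d : ℕ) (A τ : ℝ), 0 < τ → ∃ B : ℝ, ∀ C : ℝ,
      ∃ T₁ : ℝ, ∀ T : ℝ, T₁ ≤ T → ∀ x : F, HeightLe F T x → ‖ξ - ι x‖ ≤ C * T ^ (-τ) →
        Good F ι (fun i : Fin g => c i) d (T ^ A) (T ^ (-B)) (fun k : Fin 11 => towers s (ι x) k)) ∧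
    (∀ n : ℕ, 1 ≤ n → ∀ τ : ℝ, 0 < τ →
      ∃ E : Set (Fin n → ℂ), dimH E ≤ ENNReal.ofReal (2 * (Module.finrank ℚ F : ℝ) * ((n : ℝ) - 1) / τ) ∧
      ∀ ξ : Fin n → ℂ, (∀ j, ξ j ∈ Complex.slitPlane) → ξ ∉ E → ∀ (g d : ℕ) (A : ℝ), ∃ B : ℝ, ∀ C : ℝ, ∃ T₁ : ℝ,
        ∀ T : ℝ, T₁ ≤ T → ∀ x : Fin n → F,
          (∀ j, HeightLe F T (x j) ∧ ‖ξ j - ι (x j)‖ ≤ C * T ^ (-τ)) →
            Good F ι (fun i : Fin g => c i) d (T ^ A) (T ^ (-B))
              (fun k : Fin n × Fin 11 => towers s (ι (x k.1)) k.2)) := by
  refine ⟨?_, fun n hn τ hτ => ?_⟩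
  · obtain ⟨E, hE, h⟩ := GG.masterOne F ι (fun (k : Fin 11) z => towers s z k) Complex.slitPlane
      Complex.isOpen_slitPlane (fun k t ht => functions_an s k t ht)
      (fun t ht => functions_ind s hs hirr halg t ht) c
    exact ⟨E, hE, h⟩
  · obtain ⟨E, hE, h⟩ := GG.master F ι n hn (fun (_ : Fin n) (k : Fin 11) z => towers s z k) Complex.slitPlane
      Complex.isOpen_slitPlane (fun _ k t ht => functions_an s k t ht)
      (fun _ t ht => functions_ind s hs hirr halg t ht) c τ hτ
    exact ⟨E, hE, h⟩

end Pool.Agent.Results.MP_93d8d2_nt.NearEveryPoint
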